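import Pool.Agent.Y66.CM.Stage

/-!
# All stages: cone monotone maps of compact manifolds are approximated by local diffeomorphisms
-/

set_option autoImplicit false

open Set Filter Topology Metric Function MeasureTheory
open scoped Manifold ContDiff

noncomputable section

namespace Pool.Agent.Y66.CM

open Pool.Agent.Y522

section charts

variable {n : ℕ} {Y : Type} [TopologicalSpace Y] [ChartedSpace (E n) Y]

/-- charts are local diffeomorphisms -/
theorem LD_chart [IsManifold (𝓡 n) ∞ Y] (y0 y : Y) (hy : y ∈ (chartAt (E n) y0).source) :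
    LD n (chartAt (E n) y0 : Y → E n) y := by
  let Φ : PartialDiffeomorph (𝓡 n) (𝓡 n) Y (E n) ∞ :=
    { toPartialEquiv := (chartAt (E n) y0).toPartialEquiv
      open_source := (chartAt (E n) y0).open_source
      open_target := (chartAt (E n) y0).open_target
      contMDiffOn_toFun := contMDiffOn_chart
      contMDiffOn_invFun := contMDiffOn_chart_symm }
  exact ⟨Φ, hy, fun _ _ => rfl⟩

end charts

theorem call (hS : StCStage) : StCAll := by
  intro n X Y _ _ _ _ _ _ _ _ _ f O hx hO hfO
  classical
  have hf : Continuous f := f.continuous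
  have hD : ∀ x : X, ∃ D : Set X, IsCompact D ∧ x ∈ interior D ∧
      D ⊆ f ⁻¹' (chartAt (E n) (f x)).source := by
    intro x
    have : LocallyCompactSpace X := ChartedSpace.locallyCompactSpace (E n) X
    exact exists_compact_subset ((chartAt (E n) (f x)).open_source.preimage hf)
      (mem_chart_source (E n) (f x))
  choose D hDc hDx hDV using hD
  obtain ⟨t, -, ht⟩ := isCompact_univ.elim_nhds_subcover (fun x => interior (D x))
    (fun x _ => isOpen_interior.mem_nhds (hDx x))
  obtain ⟨O', hO'd⟩ : ∃ O' : Set (X × Y), O' = O ∩ ⋂ x ∈ t, {p : X × Y | p.1 ∉ D x ∨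
    p.2 ∈ (chartAt (E n) (f x)).source} := ⟨_, rfl⟩
  have hO'm : ∀ p : X × Y, p ∈ O' ↔ p ∈ O ∧ ∀ x ∈ t, p.1 ∉ D x ∨
      p.2 ∈ (chartAt (E n) (f x)).source := by
    intro p
    rw [hO'd]
    simp
  have hO'o : IsOpen O' := by
    rw [hO'd]
    refine hO.inter (isOpen_biInter_finset fun x _ => ?_)
    have h1 : IsOpen {p : X × Y | p.1 ∉ D x} :=
      (hDc x).isClosed.isOpen_compl.preimage continuous_fst
    have h2 : IsOpen {p : X × Y | p.2 ∈ (chartAt (E n) (f x)).source} :=
      (chartAt (E n) (f x)).open_source.preimage continuous_snd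
    exact h1.union h2
  have hfO' : ∀ x, (x, f x) ∈ O' := by
    intro x
    rw [hO'm]
    refine ⟨hfO x, fun z _ => ?_⟩
    by_cases hz : x ∈ D z
    · exact Or.inr (hDV z hz)
    · exact Or.inl hz
  have hind : ∀ s : Finset X, s ⊆ t → ∃ f' : C(X, Y),
      (∀ x, LD n f' x ∨ CMon n f' x) ∧ HomIn O' f f' ∧
      ∀ z ∈ s, ∀ x ∈ D z, LD n f' x := by
    intro s
    induction s using Finset.induction_on with
    | empty =>
      intro _
      exact ⟨f, hx, HomIn.refl hfO', fun z hz => absurd hz (Finset.notMem_empty z)⟩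
    | insert a s ha ih =>
      intro hst
      obtain ⟨f1, h2, h0, h4⟩ := ih ((Finset.subset_insert a s).trans hst)
      have h3 : ∀ x, (x, f1 x) ∈ O' := h0.right
      have hat : a ∈ t := hst (Finset.mem_insert_self a s)
      obtain ⟨f2, h6, h7, h8, h9⟩ := hS n X Y f1 (D a) (chartAt (E n) (f a)).source
        (chartAt (E n) (f a)) O' h2 (hDc a) (chartAt (E n) (f a)).open_source
        (chartAt (E n) (f a)).injOn (fun y hy => LD_chart (f a) y hy)
        (by
          intro x hxa
          rcases ((hO'm _).1 (h3 x)).2 a hat with h10 | h10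
          · exact absurd hxa h10
          · exact h10)
        hO'o h3
      refine ⟨f2, h6, h0.trans h7, fun z hz x hxz => ?_⟩
      rcases Finset.mem_insert.1 hz with h10 | h10
      · subst h10
        exact h9 x hxz
      · exact h8 x (h4 z h10 x hxz)
  obtain ⟨f', h1, h2, h4⟩ := hind t (Finset.Subset.refl t)
  refine ⟨f', h2.mono (fun p hp => ((hO'm p).1 hp).1), fun x => ?_⟩
  obtain ⟨z, hz, hxz⟩ := mem_iUnion₂.1 (ht (mem_univ x))
  exact h4 z hz x (interior_subset hxz)

end Pool.Agent.Y66.CM
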