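import Pool.Agent.Y66.CM.Box
import Pool.Agent.Y73.SH.Glob

/-!
# Smoothing a cone monotone map to `ℝ^n` near a compact set

Adapted from `Pool.Agent.Y407.SD.Phase` (helper407).
-/

set_option autoImplicit false

open Set Filter Topology Metric Function MeasureTheory
open scoped Manifold ContDiff

noncomputable section

namespace Pool.Agent.Y66.CM

open Pool.Agent.Y522 Pool.Agent.Y73.SH

theorem cphase (hS : StCStep) : StCPhase := by
  intro n X _ _ _ _ F W K hW hF hD hK hKW
  have hKc : IsCompact (K ∩ {x | ¬ LD n F x}) := by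
    apply hK.inter_right
    have : IsOpen {x | LD n F x} := by
      rw [isOpen_iff_mem_nhds]
      intro x hx
      exact LD.eventually hx
    exact this.isClosed_compl
  have h1 : ∀ x ∈ K ∩ {x | ¬ LD n F x}, ∃ (B : E n → X) (κ : ℝ), 0 < κ ∧ B 0 = x ∧
      InjOn B (closedBall 0 2) ∧ (∀ z ∈ closedBall 0 2, LD n B z) ∧
      (∀ z ∈ closedBall 0 2, B z ∈ W) ∧ CBox n F B 2 κ := by
    intro x hx
    exact cbox_exists hW (hKW hx.1) ((hD x (hKW hx.1)).resolve_left hx.2)
  choose! B κ hκ hB0 hBi hBd hBW hBm using h1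
  have hUn : ∀ x (hx : x ∈ K ∩ {x | ¬ LD n F x}), B x '' ball 0 (1 / 2) ∈ 𝓝 x := by
    intro x hx
    have h2 : LD n (B x) 0 := hBd x hx 0 (by simp)
    have h3 := h2.image_mem_nhds (ball_mem_nhds (0 : E n) (by norm_num : (0 : ℝ) < 1 / 2))
    rwa [hB0 x hx] at h3
  obtain ⟨t, ht⟩ := hKc.elim_nhds_subcover' (fun x _ => B x '' ball 0 (1 / 2)) hUn
  set N := t.card with hN
  set A : Fin N → E n → X := fun j => B ((t.equivFin.symm j).1 : X) with hA
  have hAK : ∀ j : Fin N, ((t.equivFin.symm j).1 : X) ∈ K ∩ {x | ¬ LD n F x} := fun j =>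
    (t.equivFin.symm j).1.2
  obtain ⟨κ₀, hκ0, hκ1⟩ := exists_lower (fun j : Fin N => κ ((t.equivFin.symm j).1 : X))
    (fun j => hκ _ (hAK j))
  have hAi : ∀ j, InjOn (A j) (closedBall 0 2) := fun j => hBi _ (hAK j)
  have hAd : ∀ j, ∀ z ∈ closedBall (0 : E n) 2, LD n (A j) z := fun j => hBd _ (hAK j)
  have hAW : ∀ j, ∀ z ∈ closedBall (0 : E n) 2, A j z ∈ W := fun j => hBW _ (hAK j)
  have hcov : ∀ x ∈ K, ¬ LD n F x → ∃ j z, ‖z‖ ≤ 1 / 2 ∧ A j z = x := by
    intro x hxK hx
    have h2 := ht ⟨hxK, hx⟩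
    rw [mem_iUnion₂] at h2
    obtain ⟨y, hy, z, hz, hzx⟩ := h2
    refine ⟨t.equivFin ⟨y, hy⟩, z, ?_, ?_⟩
    · rw [mem_ball_zero_iff] at hz
      exact hz.le
    · simp only [hA, Equiv.symm_apply_apply]
      exact hzx
  set C : Set X := ⋃ j, A j '' closedBall 0 1 with hCdef
  have hCc : IsCompact C := by
    apply isCompact_iUnion
    intro j
    apply (isCompact_closedBall _ _).image_of_continuousOn
    intro z hz
    exact (hAd j z (closedBall_subset_closedBall (by norm_num) hz)).continuousAt.continuousWithinAt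
  have hCW : C ⊆ W := by
    intro x hx
    rw [hCdef, mem_iUnion] at hx
    obtain ⟨j, z, hz, rfl⟩ := hx
    exact hAW j z (closedBall_subset_closedBall (by norm_num) hz)
  refine ⟨C, hCc, hCW, ?_⟩
  intro e he
  set d1 : ℝ := e / (N + 1) with hd1def
  have hN1 : (0 : ℝ) < (N : ℝ) + 1 := by positivity
  have hd10 : 0 < d1 := by positivity
  -- the induction
  have key : ∀ i : ℕ, i ≤ N → ∃ F' : X → E n, ContinuousOn F' W ∧ (∀ p, ‖F' p - F p‖ ≤ i * d1) ∧
      (∀ p, (∀ j, p ∉ A j '' closedBall 0 1) → F' p = F p) ∧ (∀ p, LD n F p → LD n F' p) ∧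
      (∀ j : Fin N, (j : ℕ) < i → ∀ z, ‖z‖ ≤ 1 / 2 → LD n F' (A j z)) ∧
      ∀ j, CBox n F' (A j) (2 - i / (2 * N)) (κ₀ * (1 - i / (2 * N))) := by
    intro i
    induction i with
    | zero =>
      intro _
      refine ⟨F, hF, fun p => by simp, fun _ _ => rfl, fun _ h => h, fun j hj => absurd hj (by omega),
        fun j => ?_⟩
      refine CBox.mono (hBm _ (hAK j)) (by simp) ?_
      have := hκ1 j
      simpa using this
    | succ i ih =>
      intro hi
      obtain ⟨F', h2, h3, h4, h5, h6, h7⟩ := ih (by omega)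
      have hN0 : (0 : ℝ) < N := by exact_mod_cast (by omega : 0 < N)
      have hiN : ((i : ℝ) + 1) ≤ N := by exact_mod_cast hi
      have hi0 : (0 : ℝ) ≤ i := by positivity
      have g1 : ((i : ℝ) + 1) / (2 * N) ≤ 1 / 2 := by
        rw [div_le_iff₀ (by positivity)]
        linarith
      have g2 : (i : ℝ) / (2 * N) < ((i : ℝ) + 1) / (2 * N) := by
        apply div_lt_div_of_pos_right _ (by positivity)
        linarith
      have g3 : 0 ≤ (i : ℝ) / (2 * N) := by positivity
      obtain ⟨F'', k1, k2, k3, k4, k5, k6⟩ := hS n X F' W N A ⟨i, by omega⟩ (2 - i / (2 * N))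
        (2 - ((i : ℝ) + 1) / (2 * N)) (κ₀ * (1 - i / (2 * N)))
        (κ₀ * (1 - ((i : ℝ) + 1) / (2 * N))) d1 hW h2 hAi hAd hAW (by linarith) (by linarith)
        (by linarith) (mul_pos hκ0 (by linarith)) (mul_lt_mul_of_pos_left (by linarith) hκ0) hd10
        (h7 _).mbox
      refine ⟨F'', k1, ?_, ?_, fun p hp => k4 p (h5 p hp), ?_, ?_⟩
      · intro p
        have e3 : F'' p - F p = (F'' p - F' p) + (F' p - F p) := by abel
        rw [e3]
        refine (norm_add_le _ _).trans ?_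
        have := k3 p
        have := h3 p
        push_cast
        linarith
      · intro p hp
        rw [k2 p (hp _), h4 p hp]
      · intro j hj z hz
        rcases Nat.lt_succ_iff_lt_or_eq.1 hj with h8 | h8
        · exact k4 _ (h6 j h8 z hz)
        · have h9 : j = ⟨i, by omega⟩ := Fin.ext h8
          rw [h9]
          exact k5 z hz
      · intro j u hu
        obtain ⟨c, ℓ, hc, hcd⟩ := h7 j u hu
        refine ⟨c, ℓ, hc, ?_⟩
        push_cast
        exact CDir_of_dir hc.le fun m hm => k6 j u _ hu (hcd.dir hm)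
  obtain ⟨F', h2, h3, h4, h5, h6, h7⟩ := key N le_rfl
  have hdist : ∀ p, ‖F' p - F p‖ ≤ e := by
    intro p
    refine (h3 p).trans ?_
    rw [hd1def, mul_div_assoc', div_le_iff₀ hN1]
    nlinarith
  have hoff : ∀ p, p ∉ C → F' p = F p := by
    intro p hp
    apply h4
    intro j hj
    exact hp (mem_iUnion.2 ⟨j, hj⟩)
  have hbox : ∀ j, CBox n F' (A j) (3 / 2) (κ₀ / 2) := by
    intro j
    have hN0 : (0 : ℝ) < N := by exact_mod_cast (lt_of_le_of_lt (Nat.zero_le _) j.2)
    have e3 : (N : ℝ) / (2 * N) = 1 / 2 := by field_simp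
    have h8 := h7 j
    rw [e3] at h8
    exact CBox.mono h8 (by norm_num) (by linarith)
  have hκ2 : 0 < κ₀ / 2 := by linarith
  refine ⟨F', h2, hoff, hdist, h5, ?_, ?_⟩
  · intro x hx
    by_cases hxL : LD n F x
    · exact h5 x hxL
    · obtain ⟨j, z, hz, rfl⟩ := hcov x hx hxL
      exact h6 j j.2 z hz
  · intro x hx
    by_cases hxC : x ∈ C
    · right
      rw [hCdef, mem_iUnion] at hxC
      obtain ⟨j, z, hz, rfl⟩ := hxC
      refine CMonE_of_CBox hκ2 (hbox j) (by simpa using hz)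
        (hAd j z (closedBall_subset_closedBall (by norm_num) hz))
    · rcases hD x hx with h8 | h8
      · exact Or.inl (h5 x h8)
      · right
        refine CMonE.congr h8 ?_
        have h9 : Cᶜ ∈ 𝓝 x := hCc.isClosed.isOpen_compl.mem_nhds hxC
        filter_upwards [h9] with y hy
        exact hoff y hy

end Pool.Agent.Y66.CM
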