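import Pool.Agent.Y522.Stm6

/-!
# Cone monotone maps between smooth manifolds: definitions

The method (mollification of directionally monotone maps in overlapping boxes) is that of
helper522's project SH3 and helper521's project SD.  Here the target is an arbitrary smooth
manifold, and for this the monotonicity is required in a form which does not depend on the
coordinates of the target.
-/

set_option autoImplicit false

open Set Filter Topology Metric Function MeasureTheory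
open scoped Manifold ContDiff

noncomputable section

namespace Pool.Agent.Y66.CM

open Pool.Agent.Y522

section defs

variable (n : ℕ) {X Y : Type} [TopologicalSpace X] [ChartedSpace (E n) X]
  [TopologicalSpace Y] [ChartedSpace (E n) Y]

/-- `ℓ ∘ F` is strictly increasing on the box `A` (radius `ρ`) in the directions near `u`
(aperture `κ`). -/
def Dir (F : X → E n) (A : E n → X) (ρ κ : ℝ) (u : E n) (ℓ : E n →L[ℝ] ℝ) : Prop :=
  ∀ p q : E n, ‖p‖ ≤ ρ → ‖q‖ ≤ ρ → ∀ t : ℝ, 0 < t → ‖q - p - t • u‖ ≤ κ * t →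
    ℓ (F (A p)) < ℓ (F (A q))

/-- The increments of `F` on the box `A` in the directions near `u` lie in the cone
`c ‖z‖ < ℓ z`. -/
def CDir (F : X → E n) (A : E n → X) (ρ κ c : ℝ) (u : E n) (ℓ : E n →L[ℝ] ℝ) : Prop :=
  ∀ p q : E n, ‖p‖ ≤ ρ → ‖q‖ ≤ ρ → ∀ t : ℝ, 0 < t → ‖q - p - t • u‖ ≤ κ * t →
    c * ‖F (A q) - F (A p)‖ < ℓ (F (A q) - F (A p))

/-- uniform cone monotonicity on a box -/
def CBox (F : X → E n) (A : E n → X) (ρ κ : ℝ) : Prop :=
  ∀ u : E n, ‖u‖ = 1 → ∃ (c : ℝ) (ℓ : E n →L[ℝ] ℝ), 0 < c ∧ CDir n F A ρ κ c u ℓ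

/-- `F : X → ℝ^n` is cone monotone at `x`: in a smooth parametrization `A` around `x`, for every
direction `v` the increments of `F` in the directions near `v` lie in a proper cone. -/
def CMonE (F : X → E n) (x : X) : Prop :=
  ∃ A : E n → X, A 0 = x ∧ LD n A 0 ∧ ∀ v : E n, v ≠ 0 → ∃ (r : ℝ) (ℓ : E n →L[ℝ] ℝ), 0 < r ∧
    ∀ p q : E n, ‖p‖ ≤ r → ‖q‖ ≤ r → ∀ t : ℝ, 0 < t → ‖q - p - t • v‖ ≤ r * t →
      r * ‖F (A q) - F (A p)‖ < ℓ (F (A q) - F (A p))

/-- `f : X → Y` is cone monotone at `x`: it is so in a smooth coordinate system `B` around `f x`. -/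
def CMon (f : X → Y) (x : X) : Prop :=
  ∃ B : Y → E n, LD n B (f x) ∧ CMonE n (fun y => B (f y)) x

end defs

/-- one step of the smoothing, with the conclusion for every direction and every functional -/
def StCStep : Prop :=
  ∀ (n : ℕ) (X : Type) [TopologicalSpace X] [T2Space X] [ChartedSpace (E n) X]
    [IsManifold (𝓡 n) ∞ X] (F : X → E n) (W : Set X) (N : ℕ) (B : Fin N → E n → X) (k : Fin N)
    (ρ ρ' κ κ' e : ℝ), IsOpen W → ContinuousOn F W → (∀ j, InjOn (B j) (closedBall 0 2)) →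
    (∀ j, ∀ z ∈ closedBall 0 2, LD n (B j) z) → (∀ j, ∀ z ∈ closedBall 0 2, B j z ∈ W) →
    3 / 2 ≤ ρ' → ρ' < ρ → ρ ≤ 2 → 0 < κ' → κ' < κ → 0 < e → MBox n F (B k) ρ κ →
    ∃ F' : X → E n, ContinuousOn F' W ∧ (∀ p, p ∉ B k '' closedBall 0 1 → F' p = F p) ∧
      (∀ p, ‖F' p - F p‖ ≤ e) ∧ (∀ p, LD n F p → LD n F' p) ∧
      (∀ z, ‖z‖ ≤ 1 / 2 → LD n F' (B k z)) ∧
      ∀ (j : Fin N) (u : E n) (ℓ : E n →L[ℝ] ℝ), ‖u‖ = 1 → Dir n F (B j) ρ κ u ℓ →
        Dir n F' (B j) ρ' κ' u ℓ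

/-- smoothing near a compact set -/
def StCPhase : Prop :=
  ∀ (n : ℕ) (X : Type) [TopologicalSpace X] [T2Space X] [ChartedSpace (E n) X]
    [IsManifold (𝓡 n) ∞ X] (F : X → E n) (W : Set X) (K : Set X),
    IsOpen W → ContinuousOn F W → (∀ x ∈ W, LD n F x ∨ CMonE n F x) → IsCompact K → K ⊆ W →
    ∃ C : Set X, IsCompact C ∧ C ⊆ W ∧ ∀ e : ℝ, 0 < e → ∃ F' : X → E n,
      ContinuousOn F' W ∧ (∀ p, p ∉ C → F' p = F p) ∧ (∀ p, ‖F' p - F p‖ ≤ e) ∧
      (∀ x, LD n F x → LD n F' x) ∧ (∀ x ∈ K, LD n F' x) ∧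
      ∀ x ∈ W, LD n F' x ∨ CMonE n F' x

/-- `f` and `f'` are homotopic by a homotopy whose graph stays in `O` -/
def HomIn {X Y : Type} [TopologicalSpace X] [TopologicalSpace Y] (O : Set (X × Y))
    (f f' : C(X, Y)) : Prop :=
  ContinuousMap.HomotopicWith f f' (fun g => ∀ x, (x, g x) ∈ O)

/-- one stage of the smoothing of a map between manifolds -/
def StCStage : Prop :=
  ∀ (n : ℕ) (X Y : Type) [TopologicalSpace X] [T2Space X] [CompactSpace X] [ChartedSpace (E n) X]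
    [IsManifold (𝓡 n) ∞ X] [TopologicalSpace Y] [T2Space Y] [ChartedSpace (E n) Y]
    [IsManifold (𝓡 n) ∞ Y] (f : C(X, Y)) (D : Set X) (V : Set Y) (B : Y → E n)
    (O : Set (X × Y)),
    (∀ x, LD n f x ∨ CMon n f x) → IsCompact D → IsOpen V → InjOn B V →
    (∀ y ∈ V, LD n B y) → (∀ x ∈ D, f x ∈ V) → IsOpen O → (∀ x, (x, f x) ∈ O) →
    ∃ f' : C(X, Y), (∀ x, LD n f' x ∨ CMon n f' x) ∧ HomIn O f f' ∧
      (∀ x, LD n f x → LD n f' x) ∧ ∀ x ∈ D, LD n f' x

/-- cone monotone maps of compact manifolds are approximated by local diffeomorphisms -/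
def StCAll : Prop :=
  ∀ (n : ℕ) (X Y : Type) [TopologicalSpace X] [T2Space X] [CompactSpace X] [ChartedSpace (E n) X]
    [IsManifold (𝓡 n) ∞ X] [TopologicalSpace Y] [T2Space Y] [ChartedSpace (E n) Y]
    [IsManifold (𝓡 n) ∞ Y] (f : C(X, Y)) (O : Set (X × Y)),
    (∀ x, LD n f x ∨ CMon n f x) → IsOpen O → (∀ x, (x, f x) ∈ O) →
    ∃ f' : C(X, Y), HomIn O f f' ∧ ∀ x, LD n f' x

end Pool.Agent.Y66.CM
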