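import Pool.Agent.Y66.CM.All
import Pool.Agent.Y66.CM.Phase
import Pool.Agent.Y66.CM.Step
import Pool.Agent.Y954.SH.MollS
import Pool.Agent.Y270.SH.MollP
import Pool.Agent.Y977.SH.Disp

/-!
# Cone monotone maps between compact manifolds: the main theorem
-/

set_option autoImplicit false

open Set Filter Topology Metric Function MeasureTheory
open scoped Manifold ContDiff

noncomputable section

namespace Pool.Agent.Y66.CM

open Pool.Agent.Y522

theorem stCStep : StCStep :=
  cstep Pool.Agent.Y954.SH.mollS (Pool.Agent.Y270.SH.mollP Pool.Agent.Y954.SH.mollS)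
    Pool.Agent.Y977.SH.disp

theorem stCPhase : StCPhase := cphase stCStep

theorem stCStage : StCStage := cstage stCPhase

theorem stCAll : StCAll := call stCStage

section

variable {n : ℕ} {X Y : Type} [TopologicalSpace X] [ChartedSpace (E n) X]
  [TopologicalSpace Y] [ChartedSpace (E n) Y]

/-- local diffeomorphisms are cone monotone -/
theorem CMon_of_LD [IsManifold (𝓡 n) ∞ X] {f : X → Y} {x : X} (hf : LD n f x) : CMon n f x := by
  obtain ⟨c, hc⟩ : ∃ c : X → E n, c = chartAt (E n) x := ⟨_, rfl⟩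
  have hcL : LD n c x := by
    rw [hc]
    exact LD_chart x x (mem_chart_source _ x)
  obtain ⟨q, hq1, hq2, hq3, hq4⟩ := hcL.exists_inverse
  obtain ⟨p, hp1, hp2, hp3, -⟩ := hf.exists_inverse
  have hA0 : q (0 + c x) = x := by rw [zero_add, hq2]
  have hAL : LD n (fun z => q (z + c x)) 0 :=
    LD.comp_fun (f := fun z => z + c x) (by rw [zero_add]; exact hq1) (LD_add_const (c x) 0)
  have hBL : LD n (fun y => c (p y)) (f x) := LD.comp_fun (by rw [hp2]; exact hcL) hp1
  have hAt : Tendsto (fun z => q (z + c x)) (𝓝 0) (𝓝 x) := by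
    have := hAL.continuousAt
    rw [ContinuousAt, hA0] at this
    exact this
  have hadd : Tendsto (fun z : E n => z + c x) (𝓝 0) (𝓝 (c x)) := by
    have := (LD_add_const (c x) (0 : E n)).continuousAt
    rw [ContinuousAt, zero_add] at this
    exact this
  have hid : ∀ᶠ z in 𝓝 (0 : E n), c (p (f (q (z + c x)))) = z + c x := by
    filter_upwards [hAt.eventually hp3, hadd.eventually hq4] with z h1 h2
    rw [h1, h2]
  refine ⟨fun y => c (p y), hBL, fun z => q (z + c x), hA0, hAL, fun v hv => ?_⟩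
  obtain ⟨s, hs, h3⟩ := Metric.eventually_nhds_iff_ball.1 hid
  have hv0 : 0 < ‖v‖ := norm_pos_iff.2 hv
  refine ⟨min (s / 2) (‖v‖ / 4), innerSL ℝ v, lt_min (by linarith) (by linarith),
    fun a b ha hb t ht hab => ?_⟩
  have hr1 : min (s / 2) (‖v‖ / 4) ≤ s / 2 := min_le_left _ _
  have hr2 : min (s / 2) (‖v‖ / 4) ≤ ‖v‖ / 4 := min_le_right _ _
  have hr0 : 0 < min (s / 2) (‖v‖ / 4) := lt_min (by linarith) (by linarith)
  obtain ⟨r, hr⟩ : ∃ r : ℝ, r = min (s / 2) (‖v‖ / 4) := ⟨_, rfl⟩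
  rw [← hr] at ha hb hab hr1 hr2 hr0 ⊢
  have h4 := h3 a (by rw [mem_ball_zero_iff]; linarith)
  have h5 := h3 b (by rw [mem_ball_zero_iff]; linarith)
  change r * ‖c (p (f (q (b + c x)))) - c (p (f (q (a + c x))))‖ <
    innerSL ℝ v (c (p (f (q (b + c x)))) - c (p (f (q (a + c x)))))
  rw [h4, h5, add_sub_add_right_eq_sub]
  obtain ⟨w, hw⟩ : ∃ w, w = b - a - t • v := ⟨_, rfl⟩
  have h6 : b - a = t • v + w := by rw [hw]; abel
  rw [← hw] at hab
  rw [h6, innerSL_apply_apply, inner_add_right, inner_smul_right, real_inner_self_eq_norm_sq]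
  have h7 : ‖t • v + w‖ ≤ t * ‖v‖ + r * t := by
    refine (norm_add_le _ _).trans (add_le_add ?_ hab)
    rw [norm_smul, Real.norm_eq_abs, abs_of_pos ht]
  have h8 : |inner ℝ v w| ≤ ‖v‖ * (r * t) :=
    (abs_real_inner_le_norm v w).trans (mul_le_mul_of_nonneg_left hab (norm_nonneg _))
  have h9 := (abs_le.1 h8).1
  have h10 : r * ‖t • v + w‖ ≤ r * (t * ‖v‖ + r * t) := mul_le_mul_of_nonneg_left h7 hr0.le
  have h11 : r * (t * ‖v‖ + r * t) < t * ‖v‖ ^ 2 - ‖v‖ * (r * t) := by
    have h12 : r * r ≤ (‖v‖ / 4) * (‖v‖ / 4) := mul_le_mul hr2 hr2 hr0.le (by linarith)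
    have h13 : r * ‖v‖ ≤ (‖v‖ / 4) * ‖v‖ := mul_le_mul_of_nonneg_right hr2 hv0.le
    have h14 : 0 < ‖v‖ ^ 2 - 2 * (r * ‖v‖) - r * r := by nlinarith
    have h15 := mul_pos ht h14
    nlinarith
  linarith

theorem bijective_of_section [T2Space X] [CompactSpace X] [ConnectedSpace X] [T2Space Y]
    {f : C(X, Y)} (h : ∀ x, LD n f x) (s : C(Y, X)) (hs : ∀ y, f (s y) = y) : Bijective f := by
  have hl : IsLocalDiffeomorph (𝓡 n) (𝓡 n) ∞ f := h
  have hh : IsLocalHomeomorph f := hl.isLocalHomeomorph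
  have hcov : IsCoveringMap f := isLocalHomeomorph_iff_isCoveringMap.1 hh
  obtain ⟨x0⟩ : Nonempty X := inferInstance
  have h2 : s ∘ f = id := by
    refine hcov.eq_of_comp_eq (s.continuous.comp f.continuous) continuous_id ?_ (s (f x0)) ?_
    · ext x
      change f (s (f x)) = f x
      exact hs (f x)
    · change s (f (s (f x0))) = s (f x0)
      rw [hs]
  refine ⟨fun x y hxy => ?_, fun y => ⟨s y, hs y⟩⟩
  have h4 := congrFun h2 x
  have h5 := congrFun h2 y
  simp only [Function.comp, id] at h4 h5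
  rw [← h4, ← h5, hxy]

theorem bijective_of_homotopic [T2Space X] [CompactSpace X] [ConnectedSpace X] [T2Space Y]
    {f : C(X, Y)} (h : ∀ x, LD n f x) (g : C(Y, X))
    (hg : (f.comp g).Homotopic (ContinuousMap.id Y)) : Bijective f := by
  have hl : IsLocalDiffeomorph (𝓡 n) (𝓡 n) ∞ f := h
  have hh : IsLocalHomeomorph f := hl.isLocalHomeomorph
  have hcov : IsCoveringMap f := isLocalHomeomorph_iff_isCoveringMap.1 hh
  obtain ⟨H⟩ := hg
  have H0 : ∀ y, H.toContinuousMap (0, y) = f (g y) := fun y => H.apply_zero y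
  obtain ⟨K, hK⟩ : ∃ K, K = hcov.liftHomotopy H.toContinuousMap g H0 := ⟨_, rfl⟩
  have hK1 : ∀ q, f (K q) = H.toContinuousMap q := by
    intro q
    rw [hK]
    exact congrFun (hcov.liftHomotopy_lifts H.toContinuousMap g H0) q
  refine bijective_of_section h (K.comp ((ContinuousMap.const Y (1 : unitInterval)).prodMk
    (ContinuousMap.id Y))) fun y => ?_
  change f (K (1, y)) = y
  rw [hK1]
  exact H.apply_one y

theorem bijective_of_simply [T2Space X] [CompactSpace X] [ConnectedSpace X] [T2Space Y]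
    [SimplyConnectedSpace Y] {f : C(X, Y)} (h : ∀ x, LD n f x) : Bijective f := by
  have hl : IsLocalDiffeomorph (𝓡 n) (𝓡 n) ∞ f := h
  have hh : IsLocalHomeomorph f := hl.isLocalHomeomorph
  have hcov : IsCoveringMap f := isLocalHomeomorph_iff_isCoveringMap.1 hh
  have hY : LocallyPathConnectedSpace Y := ChartedSpace.locallyPathConnectedSpace (E n) Y
  obtain ⟨x0⟩ : Nonempty X := inferInstance
  obtain ⟨s, ⟨hs0, hs1⟩, -⟩ := hcov.existsUnique_continuousMap_lifts (ContinuousMap.id Y)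
    (f x0) x0 rfl
  exact bijective_of_section h s (fun y => congrFun hs1 y)

end

/-- cone monotone maps from compact manifolds are homotopic, close to themselves, to local
diffeomorphisms, and to diffeomorphisms if the source is connected and either the target is
simply connected or the map has a right homotopy inverse -/
theorem main (n : ℕ) (X Y : Type) [TopologicalSpace X] [T2Space X] [CompactSpace X]
    [ChartedSpace (E n) X] [IsManifold (𝓡 n) ∞ X] [TopologicalSpace Y] [T2Space Y]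
    [ChartedSpace (E n) Y] [IsManifold (𝓡 n) ∞ Y] :
    (∀ (f : X → Y) (x : X), LD n f x → CMon n f x) ∧
    ∀ f : C(X, Y), (∀ x, CMon n f x) → ∀ O : Set (X × Y), IsOpen O → (∀ x, (x, f x) ∈ O) →
      ∃ f' : C(X, Y), ContinuousMap.HomotopicWith f f' (fun g => ∀ x, (x, g x) ∈ O) ∧
        IsLocalDiffeomorph (𝓡 n) (𝓡 n) ∞ f' ∧
        (ConnectedSpace X → (SimplyConnectedSpace Y ∨ ∃ g : C(Y, X),
          (f.comp g).Homotopic (ContinuousMap.id Y)) →
          ∃ Φ : X ≃ₘ^∞⟮𝓡 n, 𝓡 n⟯ Y, ⇑Φ = ⇑f') := by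
  refine ⟨fun f x h => CMon_of_LD h, fun f hf O hO hfO => ?_⟩
  obtain ⟨f', h1, h2⟩ := stCAll n X Y f O (fun x => Or.inr (hf x)) hO hfO
  refine ⟨f', h1, h2, fun hX hY => ?_⟩
  have hl : IsLocalDiffeomorph (𝓡 n) (𝓡 n) ∞ f' := h2
  have hb : Bijective f' := by
    rcases hY with hY | ⟨g, hg⟩
    · exact bijective_of_simply h2
    · obtain ⟨H⟩ := h1
      have h3 : f'.Homotopic f := ⟨H.toHomotopy.symm⟩
      exact bijective_of_homotopic h2 g ((h3.comp (ContinuousMap.Homotopic.refl g)).trans hg)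
  exact ⟨hl.diffeomorphOfBijective hb, rfl⟩

end Pool.Agent.Y66.CM
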