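import Pool.Agent.Y66.CM.Defs
import Pool.Agent.Y899.SH.Chart

/-!
# Boxes for cone monotone maps

Adapted from `Pool.Agent.Y899.SH.Chart` (helper899) and `Pool.Agent.Y407.SD.Phase` (helper407).
-/

set_option autoImplicit false

open Set Filter Topology Metric Function MeasureTheory
open scoped Manifold ContDiff

noncomputable section

namespace Pool.Agent.Y66.CM

open Pool.Agent.Y522

section dir

variable {n : ℕ} {X : Type} {F : X → E n} {A : E n → X} {ρ κ c : ℝ} {u : E n}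
  {ℓ : E n →L[ℝ] ℝ}

theorem CDir.dir (h : CDir n F A ρ κ c u ℓ) {m : E n →L[ℝ] ℝ} (hm : ‖m‖ ≤ c) :
    Dir n F A ρ κ u (ℓ - m) := by
  intro p q hp hq t ht hpq
  have h1 := h p q hp hq t ht hpq
  have h2 : m (F (A q) - F (A p)) ≤ c * ‖F (A q) - F (A p)‖ :=
    (le_abs_self _).trans ((m.le_opNorm _).trans (mul_le_mul_of_nonneg_right hm (norm_nonneg _)))
  have h3 : 0 < (ℓ - m) (F (A q) - F (A p)) := by
    rw [ContinuousLinearMap.sub_apply]
    linarith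
  rw [map_sub] at h3
  linarith

theorem CDir_of_dir (hc : 0 ≤ c) (h : ∀ m : E n →L[ℝ] ℝ, ‖m‖ ≤ c → Dir n F A ρ κ u (ℓ - m)) :
    CDir n F A ρ κ c u ℓ := by
  intro p q hp hq t ht hpq
  obtain ⟨g, hg1, hg2⟩ := exists_dual_vector'' ℝ (F (A q) - F (A p))
  have h1 := h (c • g) (by
    rw [norm_smul, Real.norm_of_nonneg hc]
    calc c * ‖g‖ ≤ c * 1 := mul_le_mul_of_nonneg_left hg1 hc
      _ = c := mul_one c) p q hp hq t ht hpq
  have h2 : 0 < (ℓ - c • g) (F (A q) - F (A p)) := by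
    rw [map_sub]
    linarith
  rw [ContinuousLinearMap.sub_apply, ContinuousLinearMap.smul_apply, smul_eq_mul] at h2
  have h3 : g (F (A q) - F (A p)) = ‖F (A q) - F (A p)‖ := by
    rw [hg2]
    rfl
  rw [h3] at h2
  linarith

theorem CBox.mbox (hc : CBox n F A ρ κ) : MBox n F A ρ κ := by
  intro u hu
  obtain ⟨c, ℓ, hc0, h⟩ := hc u hu
  refine ⟨ℓ, fun p q hp hq t ht hpq => ?_⟩
  have h1 := h p q hp hq t ht hpq
  have h2 : 0 ≤ c * ‖F (A q) - F (A p)‖ := by positivity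
  rw [map_sub] at h1
  linarith

theorem CBox.mono {ρ' κ' : ℝ} (h : CBox n F A ρ κ) (h1 : ρ' ≤ ρ) (h2 : κ' ≤ κ) :
    CBox n F A ρ' κ' := by
  intro u hu
  obtain ⟨c, ℓ, hc, hℓ⟩ := h u hu
  exact ⟨c, ℓ, hc, fun p q hp hq t ht hpq => hℓ p q (hp.trans h1) (hq.trans h1) t ht
    (hpq.trans (mul_le_mul_of_nonneg_right h2 ht.le))⟩

end dir

section

variable {n : ℕ} {X : Type} [TopologicalSpace X] [ChartedSpace (E n) X]

theorem CMonE.congr {F F' : X → E n} {x : X} (h : CMonE n F x) (he : F' =ᶠ[𝓝 x] F) :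
    CMonE n F' x := by
  obtain ⟨A, hA0, hAd, hA⟩ := h
  refine ⟨A, hA0, hAd, fun v hv => ?_⟩
  obtain ⟨r, ℓ, hr, hℓ⟩ := hA v hv
  have h1 : ∀ᶠ p in 𝓝 (0 : E n), F' (A p) = F (A p) := by
    have h2 := hAd.continuousAt
    rw [ContinuousAt, hA0] at h2
    exact h2.eventually he
  obtain ⟨r1, hr1, h3⟩ := Metric.eventually_nhds_iff_ball.1 h1
  have h4 : ∀ p : E n, ‖p‖ ≤ min r (r1 / 2) → F' (A p) = F (A p) := by
    intro p hp
    apply h3
    rw [mem_ball_zero_iff]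
    have := min_le_right r (r1 / 2)
    linarith
  refine ⟨min r (r1 / 2), ℓ, lt_min hr (by linarith), fun p q hp hq t ht hpq => ?_⟩
  rw [h4 p hp, h4 q hq]
  refine lt_of_le_of_lt (mul_le_mul_of_nonneg_right (min_le_left _ _) (norm_nonneg _)) ?_
  exact hℓ p q (hp.trans (min_le_left _ _)) (hq.trans (min_le_left _ _)) t ht
    (hpq.trans (mul_le_mul_of_nonneg_right (min_le_left _ _) ht.le))

theorem CMonE_of_CBox {F : X → E n} {A : E n → X} {κ : ℝ} (hκ : 0 < κ)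
    (h : CBox n F A (3 / 2) κ) {z : E n} (hz : ‖z‖ ≤ 1) (hd : LD n A z) : CMonE n F (A z) := by
  refine ⟨fun p => A (p + z), by simp, ?_, fun v hv => ?_⟩
  · have h1 : LD n (fun p : E n => p + z) 0 := LD_add_const z 0
    refine LD.comp_fun ?_ h1
    simpa using hd
  · have hv0 : 0 < ‖v‖ := norm_pos_iff.2 hv
    obtain ⟨c, ℓ, hc, hℓ⟩ := h (‖v‖⁻¹ • v) (by
      rw [norm_smul, norm_inv, norm_norm, inv_mul_cancel₀ hv0.ne'])
    refine ⟨min (min (1 / 2) (κ * ‖v‖)) c, ℓ, lt_min (lt_min (by norm_num) (mul_pos hκ hv0)) hc,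
      fun p q hp hq t ht hpq => ?_⟩
    have h0 : min (min (1 / 2) (κ * ‖v‖)) c ≤ min (1 / 2) (κ * ‖v‖) := min_le_left _ _
    have h1 : ∀ p : E n, ‖p‖ ≤ min (min (1 / 2) (κ * ‖v‖)) c → ‖p + z‖ ≤ 3 / 2 := by
      intro p hp
      have h2 := norm_add_le p z
      have h3 := min_le_left (1 / 2) (κ * ‖v‖)
      linarith
    refine lt_of_le_of_lt (mul_le_mul_of_nonneg_right (min_le_right _ _) (norm_nonneg _)) ?_
    refine hℓ (p + z) (q + z) (h1 p hp) (h1 q hq) (t * ‖v‖) (mul_pos ht hv0) ?_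
    have e1 : q + z - (p + z) - (t * ‖v‖) • ‖v‖⁻¹ • v = q - p - t • v := by
      rw [smul_smul, mul_assoc, mul_inv_cancel₀ hv0.ne', mul_one]
      abel
    rw [e1]
    refine hpq.trans ?_
    have h3 := h0.trans (min_le_right (1 / 2) (κ * ‖v‖))
    calc min (min (1 / 2) (κ * ‖v‖)) c * t ≤ κ * ‖v‖ * t := mul_le_mul_of_nonneg_right h3 ht.le
      _ = κ * (t * ‖v‖) := by ring

/-- uniform boxes inside an open set -/
theorem cbox_exists {F : X → E n} {x : X} {W : Set X} (hW : IsOpen W) (hxW : x ∈ W)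
    (hx : CMonE n F x) : ∃ (B : E n → X) (κ : ℝ), 0 < κ ∧ B 0 = x ∧ InjOn B (closedBall 0 2) ∧
      (∀ z ∈ closedBall 0 2, LD n B z) ∧ (∀ z ∈ closedBall 0 2, B z ∈ W) ∧ CBox n F B 2 κ := by
  obtain ⟨A, hA0, hA, hmon⟩ := hx
  have hmon' : ∀ v : E n, ∃ (r : ℝ) (ℓ : E n →L[ℝ] ℝ), v ≠ 0 → 0 < r ∧
    ∀ p q : E n, ‖p‖ ≤ r → ‖q‖ ≤ r → ∀ t : ℝ, 0 < t → ‖q - p - t • v‖ ≤ r * t →
      r * ‖F (A q) - F (A p)‖ < ℓ (F (A q) - F (A p)) := by
    intro v
    by_cases hv : v = 0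
    · exact ⟨1, 0, fun h => absurd hv h⟩
    · obtain ⟨r, ℓ, h1, h2⟩ := hmon v hv
      exact ⟨r, ℓ, fun _ => ⟨h1, h2⟩⟩
  choose r ℓ hr using hmon'
  obtain ⟨u, hu, hinj⟩ := hA.eventually_injOn
  have hAW : A ⁻¹' W ∈ 𝓝 (0 : E n) :=
    hA.continuousAt.preimage_mem_nhds (hW.mem_nhds (by rwa [hA0]))
  obtain ⟨r1, hr1, hball⟩ := (nhds_basis_closedBall (x := (0 : E n))).mem_iff.mp
    (Filter.inter_mem (Filter.inter_mem hu hA.eventually) hAW)
  obtain ⟨t, ht1, ht2⟩ := (isCompact_sphere (0 : E n) 1).elim_nhds_subcover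
    (fun v => ball v (r v / 2)) (by
      intro v hv
      have hv0 : v ≠ 0 := by
        rintro rfl
        simp at hv
      exact ball_mem_nhds v (by linarith [(hr v hv0).1]))
  have hne : ∀ v ∈ t, v ≠ 0 := by
    rintro v hv rfl
    have := ht1 0 hv
    simp at this
  obtain ⟨ρ0, hρ0, hρt⟩ := Pool.Agent.Y899.SH.exists_min t r (fun v hv => (hr v (hne v hv)).1)
  obtain ⟨ρ, hρdef⟩ : ∃ ρ : ℝ, ρ = min ρ0 r1 := ⟨_, rfl⟩
  have hρ : 0 < ρ := by rw [hρdef]; exact lt_min hρ0 hr1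
  have hρ1 : ρ ≤ r1 := by rw [hρdef]; exact min_le_right _ _
  have hρ2 : ∀ v ∈ t, ρ ≤ r v := fun v hv => by
    rw [hρdef]
    exact (min_le_left _ _).trans (hρt v hv)
  have hnorm : ∀ z : E n, ‖z‖ ≤ 2 → ‖(ρ / 2) • z‖ ≤ ρ := by
    intro z hz
    rw [norm_smul, Real.norm_eq_abs, abs_of_pos (by linarith)]
    calc ρ / 2 * ‖z‖ ≤ ρ / 2 * 2 := mul_le_mul_of_nonneg_left hz (by linarith)
      _ = ρ := by ring
  have hmem : ∀ z ∈ closedBall (0 : E n) 2, (ρ / 2) • z ∈ closedBall (0 : E n) r1 := by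
    intro z hz
    rw [mem_closedBall_zero_iff] at hz ⊢
    exact (hnorm z hz).trans hρ1
  refine ⟨fun z => A ((ρ / 2) • z), ρ / 2, by linarith, ?_, ?_, ?_, ?_, ?_⟩
  · simp [hA0]
  · intro a ha b hb hab
    have h1 := hinj (hball (hmem a ha)).1.1 (hball (hmem b hb)).1.1 hab
    have h2 : (ρ / 2 : ℝ) ≠ 0 := by linarith
    exact smul_right_injective _ h2 h1
  · intro z hz
    have h2 : (ρ / 2 : ℝ) ≠ 0 := by linarith
    have h3 : LD n (fun y : E n => (ρ / 2) • y) z :=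
      LD_linear (ContinuousLinearEquiv.smulLeft (Units.mk0 (ρ / 2) h2)) z
    have h4 : LD n A ((ρ / 2) • z) := (hball (hmem z hz)).1.2
    exact LD.comp_fun (g := A) (f := fun y : E n => (ρ / 2) • y) h4 h3
  · intro z hz
    exact (hball (hmem z hz)).2
  · intro v hv
    have hv' : v ∈ sphere (0 : E n) 1 := by simpa using hv
    obtain ⟨w, hw⟩ := mem_iUnion.mp (ht2 hv')
    obtain ⟨hwt, hvw⟩ := mem_iUnion.mp hw
    rw [mem_ball, dist_eq_norm] at hvw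
    refine ⟨r w, ℓ w, (hr w (hne w hwt)).1, ?_⟩
    intro p q hp hq s hs hpq
    have h1 := hρ2 w hwt
    refine (hr w (hne w hwt)).2 ((ρ / 2) • p) ((ρ / 2) • q) ((hnorm p hp).trans h1)
      ((hnorm q hq).trans h1) (ρ / 2 * s) (by positivity) ?_
    have h2 : (ρ / 2) • q - (ρ / 2) • p - (ρ / 2 * s) • w =
        (ρ / 2) • (q - p - s • v) + (ρ / 2 * s) • (v - w) := by
      module
    rw [h2]
    calc ‖(ρ / 2) • (q - p - s • v) + (ρ / 2 * s) • (v - w)‖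
        ≤ ‖(ρ / 2) • (q - p - s • v)‖ + ‖(ρ / 2 * s) • (v - w)‖ := norm_add_le _ _
      _ = ρ / 2 * ‖q - p - s • v‖ + ρ / 2 * s * ‖v - w‖ := by
          rw [norm_smul, norm_smul, Real.norm_eq_abs, Real.norm_eq_abs,
            abs_of_pos (by linarith), abs_of_pos (by positivity)]
      _ ≤ ρ / 2 * (ρ / 2 * s) + ρ / 2 * s * (r w / 2) := by
          apply add_le_add
          · exact mul_le_mul_of_nonneg_left hpq (by linarith)
          · exact mul_le_mul_of_nonneg_left hvw.le (by positivity)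
      _ = (ρ / 2 + r w / 2) * (ρ / 2 * s) := by ring
      _ ≤ r w * (ρ / 2 * s) := by
          apply mul_le_mul_of_nonneg_right _ (by positivity)
          linarith

end

end Pool.Agent.Y66.CM
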